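import Mathlib

/-!
Project CQ (MP_b09bc5_pr): numerics for `TaskLowRNum`, the PROC term.
-/

set_option autoImplicit false

namespace Pool.Agent.L5helper39.CQ

open Real

lemma exp_small {a K : ℝ} (ha : 0 < a) (hK : 0 < K) : ∃ l0 : ℝ, 0 < l0 ∧ ∀ l : ℝ, l0 ≤ l →
    exp (-(a * l)) ≤ K := by
  refine ⟨max 1 (-(log K) / a), lt_max_of_lt_left one_pos, fun l hl => ?_⟩
  rw [← Real.exp_log hK]
  apply Real.exp_le_exp.2
  have h1 : -(log K) / a ≤ l := le_trans (le_max_right _ _) hl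
  rw [div_le_iff₀ ha] at h1
  linarith

lemma pow_bound {b k : ℝ} (hb : 0 < b) (hb2 : b ≤ 1 / 2) (hk : 0 < k) (hk2 : k ≤ 1 / 2) :
    (1 - b) ^ (-(k / b)) - 1 ≤ k + (2 * k * b + 4 * k ^ 2) := by
  have h1 : 0 < 1 - b := by linarith
  have h2 : (1 - b) ^ (-(k / b)) = exp (-(k / b) * log (1 - b)) := by
    rw [Real.rpow_def_of_pos h1, mul_comm]
  have h3 : -(k / b) * log (1 - b) ≤ k * (1 + 2 * b) := by
    have h4 := Real.one_sub_inv_le_log_of_pos h1
    have h5 : -log (1 - b) ≤ b * (1 + 2 * b) := by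
      have h6 : (1 - b)⁻¹ ≤ 1 + b * (1 + 2 * b) := by
        rw [inv_le_iff_one_le_mul₀ h1]
        nlinarith [mul_pos hb hb]
      linarith
    calc -(k / b) * log (1 - b) = (k / b) * (-log (1 - b)) := by ring
      _ ≤ (k / b) * (b * (1 + 2 * b)) := mul_le_mul_of_nonneg_left h5 (by positivity)
      _ = k * (1 + 2 * b) := by field_simp
  rw [h2]
  have h7 : exp (-(k / b) * log (1 - b)) ≤ exp (k * (1 + 2 * b)) := Real.exp_le_exp.2 h3
  have h8 : 0 ≤ k * (1 + 2 * b) := by positivity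
  have h9 : k * (1 + 2 * b) ≤ 1 := by nlinarith
  have h10 := Real.abs_exp_sub_one_sub_id_le (x := k * (1 + 2 * b)) (by rw [abs_of_nonneg h8]; exact h9)
  have h11 := (abs_le.1 h10).2
  have h12 : (k * (1 + 2 * b)) ^ 2 ≤ 4 * k ^ 2 := by
    have : k * (1 + 2 * b) ≤ 2 * k := by nlinarith
    nlinarith
  nlinarith

theorem proc_num (ε γ ζ C c η : ℝ) (r : ℕ) (hε : 0 < ε) (hγ : 0 < γ) (hζ : 0 < ζ)
    (hζγ : ζ ≤ γ / 4) (hC : 0 < C) (hc : 0 < c) (hη : 0 < η) (hη1 : r * η ≤ 1 / 2)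
    (hη2 : r * η ≤ γ / 2) (hr : 3 ≤ r) :
    ∃ l0 : ℝ, ∀ l : ℝ, l0 ≤ l → ∀ L A s : ℝ, ε * l ≤ L → L ≤ l / 3 → 0 ≤ A →
      A ≤ ((r : ℝ) - 1) / 2 * L - γ * l →
      exp (r * L / 2 + A / ((r : ℝ) - 1) + ζ * l) ≤ s →
      s ≤ 2 * r * exp (r * L / 2 + A / ((r : ℝ) - 1) + ζ * l) →
      ∃ b lam : ℝ, 0 < b ∧ b < 1 ∧ 0 ≤ lam ∧
        (2 * s * exp (-((1 - η) * L))) ^ r ≤ b * (c * s ^ r * exp (-A - ζ / 2 * l)) ∧
        exp (3 * C * s * l) * ((exp (-A - ζ / 2 * l)) ^ lam *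
          exp (A * (((1 - b) ^ (-lam) - 1) / b))) ≤ exp (-(4 * s * l)) := by
  have hr' : (3 : ℝ) ≤ r := by exact_mod_cast hr
  have hr0 : (0 : ℝ) < r := by linarith
  set k : ℝ := min (ζ / 2 / (12 * r)) (1 / 2) with hk
  have hk0 : 0 < k := lt_min (by positivity) (by norm_num)
  have hk1 : k ≤ ζ / 2 / (12 * r) := min_le_left _ _
  have hk2 : k ≤ 1 / 2 := min_le_right _ _
  have hkr : k * r ≤ ζ / 24 := by
    have : k * r ≤ ζ / 2 / (12 * r) * r := mul_le_mul_of_nonneg_right hk1 hr0.le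
    calc k * r ≤ ζ / 2 / (12 * r) * r := this
      _ = ζ / 24 := by field_simp; ring
  obtain ⟨l1, hl10, hl1⟩ := exp_small (a := γ / 2) (K := min (1 / 2) (3 * ζ / (8 * r)) * c / 2 ^ r)
    (by positivity) (by positivity)
  obtain ⟨l2, hl20, hl2⟩ := exp_small (a := γ / 3)
    (K := k * (ζ / 2) / 2 / (3 * C + 4) / (2 * r * (2 ^ r / c))) (by positivity) (by positivity)
  refine ⟨max l1 l2, fun l hl L A s hL1 hL2 hA0 hA hs1 hs2 => ?_⟩
  have hll1 : l1 ≤ l := le_trans (le_max_left _ _) hl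
  have hll2 : l2 ≤ l := le_trans (le_max_right _ _) hl
  have hl0 : 0 < l := lt_of_lt_of_le hl10 hll1
  have hL0 : 0 < L := lt_of_lt_of_le (by positivity) hL1
  have hs0 : 0 < s := lt_of_lt_of_le (Real.exp_pos _) hs1
  set b : ℝ := 2 ^ r / c * exp (-(r * (1 - η) * L) + A + ζ / 2 * l) with hb
  have hb0 : 0 < b := by positivity
  -- bound for b
  have hbe : b ≤ 2 ^ r / c * exp (-(γ / 2 * l)) := by
    rw [hb]
    apply mul_le_mul_of_nonneg_left _ (by positivity)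
    apply Real.exp_le_exp.2
    have h1 : r * η * L ≤ 1 / 2 * L := mul_le_mul_of_nonneg_right hη1 hL0.le
    have h2 : ζ / 2 * l ≤ γ / 8 * l := mul_le_mul_of_nonneg_right (by linarith) hl0.le
    have h3 : (3 : ℝ) * L ≤ r * L := mul_le_mul_of_nonneg_right hr' hL0.le
    nlinarith [mul_pos hγ hl0]
  have hb1 : b ≤ min (1 / 2) (3 * ζ / (8 * r)) := by
    have h1 := hl1 l hll1
    calc b ≤ 2 ^ r / c * exp (-(γ / 2 * l)) := hbe
      _ ≤ 2 ^ r / c * (min (1 / 2) (3 * ζ / (8 * r)) * c / 2 ^ r) :=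
        mul_le_mul_of_nonneg_left h1 (by positivity)
      _ = min (1 / 2) (3 * ζ / (8 * r)) := by field_simp
  have hb2 : b ≤ 1 / 2 := le_trans hb1 (min_le_left _ _)
  have hb3 : b ≤ 3 * ζ / (8 * r) := le_trans hb1 (min_le_right _ _)
  have hbr : b * r ≤ 3 * ζ / 8 := by
    calc b * r ≤ 3 * ζ / (8 * r) * r := mul_le_mul_of_nonneg_right hb3 hr0.le
      _ = 3 * ζ / 8 := by field_simp
  -- bound for s b
  have hsb : s * b ≤ 2 * r * (2 ^ r / c) * exp (-(γ / 3 * l)) := by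
    calc s * b ≤ 2 * r * exp (r * L / 2 + A / ((r : ℝ) - 1) + ζ * l) * b :=
          mul_le_mul_of_nonneg_right hs2 hb0.le
      _ = 2 * r * (2 ^ r / c) * exp ((r * L / 2 + A / ((r : ℝ) - 1) + ζ * l) +
            (-(r * (1 - η) * L) + A + ζ / 2 * l)) := by
          rw [hb, Real.exp_add (r * L / 2 + A / ((r : ℝ) - 1) + ζ * l)]; ring
      _ ≤ _ := by
          apply mul_le_mul_of_nonneg_left _ (by positivity)
          apply Real.exp_le_exp.2
          have h1 : r * η * L ≤ γ / 2 * (l / 3) :=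
            mul_le_mul hη2 hL2 hL0.le (by positivity)
          have h2 : ζ * l ≤ γ / 4 * l := mul_le_mul_of_nonneg_right hζγ hl0.le
          have h3 : A / ((r : ℝ) - 1) ≤ L / 2 - γ * l / ((r : ℝ) - 1) := by
            rw [div_le_iff₀ (by linarith)]
            have : (L / 2 - γ * l / ((r : ℝ) - 1)) * ((r : ℝ) - 1) =
                ((r : ℝ) - 1) / 2 * L - γ * l := by
              have : (r : ℝ) - 1 ≠ 0 := by linarith
              field_simp
            rw [this]; exact hA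
          have h4 : 0 ≤ γ * l / ((r : ℝ) - 1) := div_nonneg (by positivity) (by linarith)
          nlinarith [mul_pos hγ hl0]
  have hsb2 : (3 * C + 4) * (s * b) ≤ k * (ζ / 2) / 2 := by
    have h1 := hl2 l hll2
    calc (3 * C + 4) * (s * b) ≤ (3 * C + 4) * (2 * r * (2 ^ r / c) * exp (-(γ / 3 * l))) :=
          mul_le_mul_of_nonneg_left hsb (by positivity)
      _ ≤ (3 * C + 4) * (2 * r * (2 ^ r / c) *
            (k * (ζ / 2) / 2 / (3 * C + 4) / (2 * r * (2 ^ r / c)))) := by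
          apply mul_le_mul_of_nonneg_left _ (by positivity)
          exact mul_le_mul_of_nonneg_left h1 (by positivity)
      _ = k * (ζ / 2) / 2 := by field_simp
  refine ⟨b, k / b, hb0, by linarith, by positivity, ?_, ?_⟩
  · apply le_of_eq
    rw [hb, mul_pow, mul_pow, ← Real.exp_nat_mul]
    have h1 : 2 ^ r / c * exp (-(r * (1 - η) * L) + A + ζ / 2 * l) *
        (c * s ^ r * exp (-A - ζ / 2 * l)) =
        2 ^ r * s ^ r * (exp (-(r * (1 - η) * L) + A + ζ / 2 * l) * exp (-A - ζ / 2 * l)) := by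
      field_simp
    rw [h1, ← Real.exp_add]
    congr 2
    ring
  · have h1 : (exp (-A - ζ / 2 * l)) ^ (k / b) = exp ((-A - ζ / 2 * l) * (k / b)) := by
      rw [← Real.exp_mul]
    rw [h1, ← Real.exp_add, ← Real.exp_add]
    apply Real.exp_le_exp.2
    have h2 := pow_bound hb0 hb2 hk0 hk2
    have h3 : A * (((1 - b) ^ (-(k / b)) - 1) / b) ≤ A * ((k + (2 * k * b + 4 * k ^ 2)) / b) := by
      apply mul_le_mul_of_nonneg_left _ hA0
      exact div_le_div_of_nonneg_right h2 hb0.le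
    have hA6 : A ≤ r * l / 6 := by
      have : ((r : ℝ) - 1) / 2 * L ≤ ((r : ℝ) - 1) / 2 * (l / 3) :=
        mul_le_mul_of_nonneg_left hL2 (by linarith)
      nlinarith [mul_pos hγ hl0]
    have h4 : A * (2 * k * b + 4 * k ^ 2) ≤ k * l * (ζ / 4) := by
      have h5 : A * (2 * k * b + 4 * k ^ 2) ≤ (r * l / 6) * (2 * k * b + 4 * k ^ 2) :=
        mul_le_mul_of_nonneg_right hA6 (by positivity)
      have h6 : (r * l / 6) * (2 * k * b + 4 * k ^ 2) = k * l * ((b * r) / 3 + 2 * (k * r) / 3) := by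
        ring
      have h7 : (b * r) / 3 + 2 * (k * r) / 3 ≤ ζ / 4 := by linarith
      calc A * (2 * k * b + 4 * k ^ 2) ≤ _ := h5
        _ = _ := h6
        _ ≤ k * l * (ζ / 4) := mul_le_mul_of_nonneg_left h7 (by positivity)
    have h8 : (-A - ζ / 2 * l) * (k / b) + A * (((1 - b) ^ (-(k / b)) - 1) / b) ≤
        -(k * l * (ζ / 4)) / b := by
      calc (-A - ζ / 2 * l) * (k / b) + A * (((1 - b) ^ (-(k / b)) - 1) / b)
          ≤ (-A - ζ / 2 * l) * (k / b) + A * ((k + (2 * k * b + 4 * k ^ 2)) / b) := by linarith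
        _ = (-(ζ / 2 * l * k) + A * (2 * k * b + 4 * k ^ 2)) / b := by field_simp; ring
        _ ≤ -(k * l * (ζ / 4)) / b := by
          apply div_le_div_of_nonneg_right _ hb0.le
          linarith
    have h9 : 3 * C * s * l + 4 * s * l ≤ k * l * (ζ / 4) / b := by
      rw [le_div_iff₀ hb0]
      have : (3 * C * s * l + 4 * s * l) * b = l * ((3 * C + 4) * (s * b)) := by ring
      rw [this]
      calc l * ((3 * C + 4) * (s * b)) ≤ l * (k * (ζ / 2) / 2) :=
            mul_le_mul_of_nonneg_left hsb2 hl0.le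
        _ = k * l * (ζ / 4) := by ring
    rw [neg_div] at h8
    linarith

end Pool.Agent.L5helper39.CQ
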