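import Pool.Agent.L5helper39.CQ.LowA

/-!
Project CQ (MP_b09bc5_pr): numerics for `TaskLowRNum`, the JAN and DEG terms.
-/

set_option autoImplicit false

namespace Pool.Agent.L5helper39.CQ

open Real

lemma lin_le_exp {a K : ℝ} (ha : 0 < a) (hK : 0 < K) : ∃ l0 : ℝ, 0 < l0 ∧ ∀ l : ℝ, l0 ≤ l →
    K * l ≤ exp (a * l) := by
  refine ⟨max 1 (2 * K / a ^ 2), lt_max_of_lt_left one_pos, fun l hl => ?_⟩
  have h1 : (1 : ℝ) ≤ l := le_trans (le_max_left _ _) hl
  have h2 : 2 * K / a ^ 2 ≤ l := le_trans (le_max_right _ _) hl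
  have hl0 : 0 < l := by linarith
  have h3 := Real.quadratic_le_exp_of_nonneg (x := a * l) (by positivity)
  rw [div_le_iff₀ (by positivity)] at h2
  have h4 : K * l ≤ (a * l) ^ 2 / 2 := by nlinarith
  have h5 : 0 ≤ a * l := by positivity
  linarith

theorem jan_num (ε γ ζ c : ℝ) (r : ℕ) (hε : 0 < ε) (hγ : 0 < γ) (hζ : 0 < ζ)
    (hc : 0 < c) (hr : 3 ≤ r) :
    ∃ l0 : ℝ, ∀ l : ℝ, l0 ≤ l → ∀ L A s : ℝ, ε * l ≤ L → 0 ≤ A →
      A ≤ ((r : ℝ) - 1) / 2 * L - γ * l →
      exp (r * L / 2 + A / ((r : ℝ) - 1) + ζ * l) ≤ s →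
      (∀ j : ℕ, 2 ≤ j → j ≤ r →
        (s * exp (ζ / 4 * l)) * 2 ^ r * s ^ (r - j) ≤
          (c * s ^ r * exp (-A - ζ / 2 * l)) * (exp (-L)) ^ (j.choose 2)) ∧
      exp (-(s * exp (ζ / 4 * l)) / 2) ≤ exp (-(4 * s * l)) := by
  have hr' : (3 : ℝ) ≤ r := by exact_mod_cast hr
  have hr0 : (0 : ℝ) < r := by linarith
  obtain ⟨l1, hl10, hl1⟩ := exp_small (a := ζ / 4) (K := c / 2 ^ r) (by positivity) (by positivity)
  obtain ⟨l2, hl20, hl2⟩ := lin_le_exp (a := ζ / 4) (K := 8) (by positivity) (by positivity)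
  refine ⟨max l1 l2, fun l hl L A s hL1 hA0 hA hs1 => ?_⟩
  have hll1 : l1 ≤ l := le_trans (le_max_left _ _) hl
  have hll2 : l2 ≤ l := le_trans (le_max_right _ _) hl
  have hl0 : 0 < l := lt_of_lt_of_le hl10 hll1
  have hL0 : 0 < L := lt_of_lt_of_le (by positivity) hL1
  have hs0 : 0 < s := lt_of_lt_of_le (Real.exp_pos _) hs1
  have hA2 : A / ((r : ℝ) - 1) ≤ L / 2 := by
    rw [div_le_iff₀ (by linarith)]
    nlinarith [mul_pos hγ hl0]
  constructor
  · intro j hj2 hjr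
    have hj2' : (2 : ℝ) ≤ j := by exact_mod_cast hj2
    have hjr' : (j : ℝ) ≤ r := by exact_mod_cast hjr
    have hsplit : s ^ r = s * s ^ (j - 1) * s ^ (r - j) := by
      rw [← pow_succ', ← pow_add]
      congr 1
      omega
    rw [hsplit]
    have h1 : exp (((j : ℝ) - 1) * (r * L / 2 + A / ((r : ℝ) - 1) + ζ * l)) ≤ s ^ (j - 1) := by
      calc exp (((j : ℝ) - 1) * (r * L / 2 + A / ((r : ℝ) - 1) + ζ * l))
          = (exp (r * L / 2 + A / ((r : ℝ) - 1) + ζ * l)) ^ (j - 1) := by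
            rw [← Real.exp_nat_mul]
            congr 2
            rw [Nat.cast_sub (by omega)]
            simp
        _ ≤ s ^ (j - 1) := pow_le_pow_left₀ (Real.exp_pos _).le hs1 _
    have h2 : exp (-L) ^ (j.choose 2) = exp (-((j : ℝ) * (j - 1) / 2 * L)) := by
      rw [← Real.exp_nat_mul, Nat.cast_choose_two]
      congr 1
      ring
    rw [h2]
    have h3 : exp (ζ / 4 * l) * 2 ^ r ≤
        c * (s ^ (j - 1) * (exp (-A - ζ / 2 * l) * exp (-((j : ℝ) * (j - 1) / 2 * L)))) := by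
      have h4 : exp (ζ / 2 * l) ≤ s ^ (j - 1) *
          (exp (-A - ζ / 2 * l) * exp (-((j : ℝ) * (j - 1) / 2 * L))) := by
        calc exp (ζ / 2 * l) ≤ exp (((j : ℝ) - 1) * (r * L / 2 + A / ((r : ℝ) - 1) + ζ * l) +
              ((-A - ζ / 2 * l) + (-((j : ℝ) * (j - 1) / 2 * L)))) := by
              apply Real.exp_le_exp.2
              have h5 : ((j : ℝ) - 1) * (A / ((r : ℝ) - 1)) - A =
                  -(((r : ℝ) - j) * (A / ((r : ℝ) - 1))) := by
                have : (r : ℝ) - 1 ≠ 0 := by linarith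
                field_simp
                ring
              have h6 : ((r : ℝ) - j) * (A / ((r : ℝ) - 1)) ≤ ((r : ℝ) - j) * (L / 2) :=
                mul_le_mul_of_nonneg_left hA2 (by linarith)
              have h7 : ((r : ℝ) - j) * (L / 2) ≤ ((j : ℝ) - 1) * (((r : ℝ) - j) * (L / 2)) := by
                have h8 : 0 ≤ ((r : ℝ) - j) * (L / 2) := mul_nonneg (by linarith) (by linarith)
                nlinarith
              have h9 : ζ * l ≤ ((j : ℝ) - 1) * (ζ * l) := by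
                have : 0 < ζ * l := by positivity
                nlinarith
              nlinarith
          _ = exp (((j : ℝ) - 1) * (r * L / 2 + A / ((r : ℝ) - 1) + ζ * l)) *
              (exp (-A - ζ / 2 * l) * exp (-((j : ℝ) * (j - 1) / 2 * L))) := by
              rw [Real.exp_add, Real.exp_add]
          _ ≤ _ := mul_le_mul_of_nonneg_right h1 (by positivity)
      have h10 := hl1 l hll1
      rw [Real.exp_neg, inv_le_iff_one_le_mul₀ (Real.exp_pos _)] at h10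
      have h11 : exp (ζ / 2 * l) = exp (ζ / 4 * l) * exp (ζ / 4 * l) := by
        rw [← Real.exp_add]; congr 1; ring
      calc exp (ζ / 4 * l) * 2 ^ r = exp (ζ / 4 * l) * 2 ^ r * 1 := by ring
        _ ≤ exp (ζ / 4 * l) * 2 ^ r * (c / 2 ^ r * exp (ζ / 4 * l)) :=
          mul_le_mul_of_nonneg_left h10 (by positivity)
        _ = c * exp (ζ / 2 * l) := by rw [h11]; field_simp
        _ ≤ _ := mul_le_mul_of_nonneg_left h4 hc.le
    calc s * exp (ζ / 4 * l) * 2 ^ r * s ^ (r - j) =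
          s * s ^ (r - j) * (exp (ζ / 4 * l) * 2 ^ r) := by ring
      _ ≤ s * s ^ (r - j) *
          (c * (s ^ (j - 1) * (exp (-A - ζ / 2 * l) * exp (-((j : ℝ) * (j - 1) / 2 * L))))) :=
          mul_le_mul_of_nonneg_left h3 (by positivity)
      _ = _ := by ring
  · apply Real.exp_le_exp.2
    have h1 := hl2 l hll2
    have h2 : s * (8 * l) ≤ s * exp (ζ / 4 * l) := mul_le_mul_of_nonneg_left h1 hs0.le
    linarith

theorem deg_num (ε ζ η : ℝ) (r : ℕ) (hε : 0 < ε) (hζ : 0 < ζ) (hη : 0 < η) (hη1 : η ≤ 1 / 2)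
    (hr : 3 ≤ r) :
    ∃ l0 : ℝ, ∀ l : ℝ, l0 ≤ l → ∀ L A s : ℝ, ε * l ≤ L → L ≤ l / 3 → 0 ≤ A →
      exp (r * L / 2 + A / ((r : ℝ) - 1) + ζ * l) ≤ s →
      1 ≤ exp (η * L / 2) ∧ 1 ≤ ⌈s * exp (-((1 - η) * L))⌉₊ ∧
      exp 1 * s * exp (-L) * exp (η * L / 2) ≤ (⌈s * exp (-((1 - η) * L))⌉₊ : ℝ) / 2 ∧
      (⌈s * exp (-((1 - η) * L))⌉₊ : ℝ) ≤ 2 * s * exp (-((1 - η) * L)) ∧
      exp (2 * exp l * (1 / 2 : ℝ) ^ ⌈s * exp (-((1 - η) * L))⌉₊) /
        (exp (η * L / 2)) ^ ⌊16 / (ε * η) * s⌋₊ ≤ exp (-(4 * s * l)) := by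
  have hr' : (3 : ℝ) ≤ r := by exact_mod_cast hr
  have hr0 : (0 : ℝ) < r := by linarith
  obtain ⟨l1, hl10, hl1⟩ := lin_le_exp (a := ε / 2) (K := 4) (by positivity) (by positivity)
  refine ⟨max (max l1 1) (4 / (η * ε)), fun l hl L A s hL1 hL2 hA0 hs1 => ?_⟩
  have hll1 : l1 ≤ l := le_trans (le_trans (le_max_left _ _) (le_max_left _ _)) hl
  have hll2 : 1 ≤ l := le_trans (le_trans (le_max_right _ _) (le_max_left _ _)) hl
  have hll3 : 4 / (η * ε) ≤ l := le_trans (le_max_right _ _) hl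
  have hl0 : 0 < l := by linarith
  have hL0 : 0 < L := lt_of_lt_of_le (by positivity) hL1
  have hs0 : 0 < s := lt_of_lt_of_le (Real.exp_pos _) hs1
  have hAr : 0 ≤ A / ((r : ℝ) - 1) := div_nonneg hA0 (by linarith)
  have hζl : 0 < ζ * l := by positivity
  have hrL : 3 * L ≤ r * L := mul_le_mul_of_nonneg_right hr' hL0.le
  have hε3 : ε ≤ 1 / 3 := by
    by_contra h
    push Not at h
    nlinarith
  have hs1' : 1 ≤ s := by
    refine le_trans (Real.one_le_exp ?_) hs1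
    linarith
  set t : ℝ := s * exp (-((1 - η) * L)) with ht
  have ht1 : exp (ε / 2 * l) ≤ t := by
    calc exp (ε / 2 * l) ≤ exp ((r * L / 2 + A / ((r : ℝ) - 1) + ζ * l) + (-((1 - η) * L))) := by
          apply Real.exp_le_exp.2
          nlinarith [mul_pos hη hL0]
      _ = exp (r * L / 2 + A / ((r : ℝ) - 1) + ζ * l) * exp (-((1 - η) * L)) := Real.exp_add _ _
      _ ≤ t := mul_le_mul_of_nonneg_right hs1 (Real.exp_pos _).le
  have ht2 : 1 ≤ t := by
    refine le_trans (Real.one_le_exp ?_) ht1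
    positivity
  have hτ1 : t ≤ (⌈t⌉₊ : ℝ) := Nat.le_ceil t
  have hτ2 : (⌈t⌉₊ : ℝ) < t + 1 := Nat.ceil_lt_add_one (by linarith)
  refine ⟨?_, ?_, ?_, ?_, ?_⟩
  · exact Real.one_le_exp (by positivity)
  · have : (1 : ℝ) ≤ (⌈t⌉₊ : ℝ) := by linarith
    exact_mod_cast this
  · have h1 : exp 1 * s * exp (-L) * exp (η * L / 2) = t * (exp 1 * exp (-(η * L / 2))) := by
      rw [ht]
      have : exp (-L) * exp (η * L / 2) = exp (-((1 - η) * L)) * exp (-(η * L / 2)) := by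
        rw [← Real.exp_add, ← Real.exp_add]; congr 1; ring
      calc exp 1 * s * exp (-L) * exp (η * L / 2) = exp 1 * s * (exp (-L) * exp (η * L / 2)) := by
            ring
        _ = _ := by rw [this]; ring
    have h2 : exp 1 * exp (-(η * L / 2)) ≤ 1 / 2 := by
      rw [← Real.exp_add]
      have h3 : (2 : ℝ) ≤ η * L / 2 := by
        rw [div_le_iff₀ (by positivity)] at hll3
        nlinarith
      have h4 : exp (1 + -(η * L / 2)) ≤ exp (-1) := Real.exp_le_exp.2 (by linarith)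
      have h5 : exp (-1) ≤ 1 / 2 := by
        rw [Real.exp_neg, inv_le_comm₀ (Real.exp_pos _) (by norm_num)]
        have := Real.add_one_le_exp (1 : ℝ)
        norm_num
        linarith
      linarith
    rw [h1]
    nlinarith
  · have : 2 * s * exp (-((1 - η) * L)) = 2 * t := by rw [ht]; ring
    rw [this]; linarith
  · rw [div_le_iff₀ (by positivity), ← Real.exp_nat_mul, ← Real.exp_add]
    apply Real.exp_le_exp.2
    have h1 : 2 * exp l * (1 / 2 : ℝ) ^ ⌈t⌉₊ ≤ 1 := by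
      have h2 : (1 / 2 : ℝ) ^ ⌈t⌉₊ = exp (-(⌈t⌉₊ * log 2)) := by
        rw [Real.exp_neg, mul_comm, Real.exp_mul, Real.exp_log (by norm_num), Real.rpow_natCast,
          one_div, inv_pow]
      have h3 : (2 : ℝ) ≤ exp 1 := by
        have := Real.add_one_le_exp (1 : ℝ); linarith
      have h4 : (1 / 2 : ℝ) ≤ log 2 := by
        have := Real.one_sub_inv_le_log_of_pos (x := 2) (by norm_num); norm_num at this ⊢; linarith
      have h5 := hl1 l hll1
      calc 2 * exp l * (1 / 2 : ℝ) ^ ⌈t⌉₊ ≤ exp 1 * exp l * exp (-(⌈t⌉₊ * log 2)) := by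
            rw [h2]
            apply mul_le_mul_of_nonneg_right _ (Real.exp_pos _).le
            exact mul_le_mul_of_nonneg_right h3 (Real.exp_pos _).le
        _ = exp (1 + l + -(⌈t⌉₊ * log 2)) := by rw [Real.exp_add, Real.exp_add]
        _ ≤ 1 := by
            rw [Real.exp_le_one_iff]
            have h6 : (⌈t⌉₊ : ℝ) * (1 / 2) ≤ (⌈t⌉₊ : ℝ) * log 2 :=
              mul_le_mul_of_nonneg_left h4 (by linarith)
            linarith
    have hF : 16 / (ε * η) * s - 1 ≤ (⌊16 / (ε * η) * s⌋₊ : ℝ) :=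
      (Nat.sub_one_lt_floor _).le
    have h7 : (16 / (ε * η) * s - 1) * (η * L / 2) ≤ (⌊16 / (ε * η) * s⌋₊ : ℝ) * (η * L / 2) :=
      mul_le_mul_of_nonneg_right hF (by positivity)
    have h8 : 16 / (ε * η) * s * (η * L / 2) = 8 * s * (L / ε) := by field_simp; ring
    have h9 : l ≤ L / ε := by rw [le_div_iff₀ hε]; linarith
    have h10 : 8 * s * l ≤ 8 * s * (L / ε) := mul_le_mul_of_nonneg_left h9 (by positivity)
    have h11 : η * L / 2 ≤ l := by nlinarith
    have h12 : l ≤ s * l := by nlinarith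
    nlinarith

end Pool.Agent.L5helper39.CQ
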