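import Pool.Agent.L5helper98.CQ.Stmts
import Pool.Agent.L5helper39.CQ.LowB

/-!
Project CQ (MP_b09bc5_pr): the probability that a fixed set is bad (assembly of the numerics).
-/

set_option autoImplicit false

namespace Pool.Agent.L5helper39.CQ

open Finset Pool.Agent.L5helper98.CQ
open scoped Classical

lemma ns_le {n s : ℝ} (hn : 2 ≤ n) (hs : s ≤ n) : n * s + 1 ≤ n ^ 3 := by
  have h1 : n * s ≤ n * n := mul_le_mul_of_nonneg_left hs (by linarith)
  have h2 : n ^ 3 = n * (n * n) := by ring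
  have h3 : 2 * 2 ≤ n * n := mul_le_mul hn hn (by norm_num) (by linarith)
  have h4 : 2 * (n * n) ≤ n * (n * n) := mul_le_mul_of_nonneg_right hn (by linarith)
  rw [h2]
  linarith

/-- probability that a fixed set `S` is bad -/
theorem bad_fixed (hDeg : TaskDeg) (hComb : TaskComb) (hBad : BadPb)
    (ε γ ζ : ℝ) (r : ℕ) (hε : 0 < ε) (hγ : 0 < γ) (hζ : 0 < ζ) (hζγ : ζ ≤ γ / 4) (hr : 3 ≤ r) :
    ∃ κ : ℝ, 0 < κ ∧ ∃ l0 : ℝ, ∀ n : ℕ, 2 ≤ n → l0 ≤ Real.log n → ∀ p : ℝ, 0 < p → p ≤ 1 →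
      ε * Real.log n ≤ Real.log (1 / p) → Real.log (1 / p) ≤ Real.log n / 3 →
      n * p ^ r ≤ ((r : ℝ) - 1) / 2 * Real.log (1 / p) - γ * Real.log n →
      ∀ S : Finset (Fin n), sz n r p ζ ≤ S.card → S.card ≤ r * sz n r p ζ →
        1 ≤ S.card ∧
        Pb p (fun ω : Om n => BadS r κ S ω) ≤ Real.exp (-(3 * (S.card : ℝ) * Real.log n)) := by
  have hr' : (3 : ℝ) ≤ r := by exact_mod_cast hr
  have hr0 : (0 : ℝ) < r := by linarith
  -- parameters
  set η : ℝ := min (1 / 2) (γ / 2) / r with hη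
  have hη0 : 0 < η := by positivity
  have hrη : r * η = min (1 / 2) (γ / 2) := by rw [hη]; field_simp
  have hη1 : r * η ≤ 1 / 2 := by rw [hrη]; exact min_le_left _ _
  have hη2 : r * η ≤ γ / 2 := by rw [hrη]; exact min_le_right _ _
  have hη3 : η ≤ 1 / 2 := by nlinarith
  set C : ℝ := 16 / (ε * η) with hC
  have hC0 : 0 < C := by positivity
  have hδ0 : (0 : ℝ) < 1 / (2 * r ^ 2) := by positivity
  have hδ1 : (1 : ℝ) / (2 * r ^ 2) ≤ 1 := by
    rw [div_le_one (by positivity)]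
    nlinarith
  obtain ⟨c, κ, s0, hc, hκ, hcomb⟩ := hComb r C (1 / (2 * r ^ 2)) (by omega) hC0 hδ0 hδ1
  obtain ⟨l1, hl1⟩ := proc_num ε γ ζ C c η r hε hγ hζ hζγ hC0 hc hη0 hη1 hη2 hr
  obtain ⟨l2, hl2⟩ := jan_num ε γ ζ c r hε hγ hζ hc hr
  obtain ⟨l3, hl3⟩ := deg_num ε ζ η r hε hζ hη0 hη3 hr
  obtain ⟨l4, hl40, hl4⟩ := lin_le_exp (a := ε / 2) (K := (s0 : ℝ) + 1) (by positivity)
    (by positivity)
  refine ⟨κ, hκ, max (max (max l1 l2) (max l3 l4)) 2, ?_⟩
  intro n hn hln p hp0 hp1 hL1 hL2 hA S hS1 hS2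
  have hll1 : l1 ≤ Real.log n :=
    le_trans (le_trans (le_trans (le_max_left _ _) (le_max_left _ _)) (le_max_left _ _)) hln
  have hll2 : l2 ≤ Real.log n :=
    le_trans (le_trans (le_trans (le_max_right _ _) (le_max_left _ _)) (le_max_left _ _)) hln
  have hll3 : l3 ≤ Real.log n :=
    le_trans (le_trans (le_trans (le_max_left _ _) (le_max_right _ _)) (le_max_left _ _)) hln
  have hll4 : l4 ≤ Real.log n :=
    le_trans (le_trans (le_trans (le_max_right _ _) (le_max_right _ _)) (le_max_left _ _)) hln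
  have hll5 : 2 ≤ Real.log n := le_trans (le_max_right _ _) hln
  have hn0 : (0 : ℝ) < n := by positivity
  have hn2 : (2 : ℝ) ≤ n := by exact_mod_cast hn
  obtain ⟨l, hl⟩ : ∃ l : ℝ, l = Real.log n := ⟨_, rfl⟩
  obtain ⟨L, hL⟩ : ∃ L : ℝ, L = Real.log (1 / p) := ⟨_, rfl⟩
  rw [← hl] at hln hL1 hL2 hA hll1 hll2 hll3 hll4 hll5 ⊢
  rw [← hL] at hL1 hL2 hA
  have hl0 : 0 < l := by linarith
  have hL0 : 0 < L := lt_of_lt_of_le (by positivity) hL1
  have hexpl : Real.exp l = n := by rw [hl]; exact Real.exp_log hn0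
  have hexpL : Real.exp (-L) = p := by
    rw [hL, one_div, Real.log_inv, neg_neg, Real.exp_log hp0]
  obtain ⟨A, hAd⟩ : ∃ A : ℝ, A = n * p ^ r := ⟨_, rfl⟩
  rw [← hAd] at hA
  have hA0 : 0 ≤ A := by rw [hAd]; positivity
  obtain ⟨s, hs⟩ : ∃ s : ℝ, s = (S.card : ℝ) := ⟨_, rfl⟩
  obtain ⟨w, hw⟩ : ∃ w : ℝ, w = Real.exp (r * L / 2 + A / ((r : ℝ) - 1) + ζ * l) := ⟨_, rfl⟩
  have hszw : p ^ (-(r : ℝ) / 2) * Real.exp (n * p ^ r / ((r : ℝ) - 1)) * (n : ℝ) ^ ζ = w := by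
    rw [hw, Real.exp_add, Real.exp_add, ← hAd]
    congr 1
    · congr 1
      rw [← hexpL, ← Real.exp_mul]
      congr 1
      ring
    · rw [← hexpl, ← Real.exp_mul]
      congr 1
      ring
  have hw1 : 1 ≤ w := by
    rw [hw]
    apply Real.one_le_exp
    have : 0 ≤ A / ((r : ℝ) - 1) := div_nonneg hA0 (by linarith)
    positivity
  have hsw : w ≤ s := by
    have h1 : w ≤ (sz n r p ζ : ℝ) := by
      unfold sz
      rw [hszw]
      exact Nat.le_ceil w
    have h2 : (sz n r p ζ : ℝ) ≤ s := by rw [hs]; exact_mod_cast hS1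
    linarith
  have hsw2 : s ≤ 2 * r * w := by
    have h1 : (sz n r p ζ : ℝ) < w + 1 := by
      unfold sz
      rw [hszw]
      exact Nat.ceil_lt_add_one (by linarith)
    have h2 : s ≤ r * (sz n r p ζ : ℝ) := by rw [hs]; exact_mod_cast hS2
    nlinarith
  have hs1 : 1 ≤ s := le_trans hw1 hsw
  have hs0 : 0 < s := by linarith
  have hSn : s ≤ n := by
    have : S.card ≤ n := by simpa using Finset.card_le_univ S
    rw [hs]
    exact_mod_cast this
  have hSs0 : s0 ≤ S.card := by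
    have h1 := hl4 l hll4
    have h2 : Real.exp (ε / 2 * l) ≤ w := by
      rw [hw]
      apply Real.exp_le_exp.2
      have : 0 ≤ A / ((r : ℝ) - 1) := div_nonneg hA0 (by linarith)
      have h3 : 0 < ζ * l := by positivity
      have h4 : 3 * L ≤ r * L := mul_le_mul_of_nonneg_right hr' hL0.le
      linarith
    have h3 : (s0 : ℝ) ≤ s := by
      have : (s0 : ℝ) + 1 ≤ ((s0 : ℝ) + 1) * l := by
        have : (0 : ℝ) ≤ (s0 : ℝ) := Nat.cast_nonneg _
        nlinarith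
      linarith
    rw [hs] at h3
    exact_mod_cast h3
  obtain ⟨b, lam, hb0, hb1, hlam, hbm, hproc⟩ := hl1 l hll1 L A s hL1 hL2 hA0 hA (hw ▸ hsw) (hw ▸ hsw2)
  obtain ⟨hjan, hjan2⟩ := hl2 l hll2 L A s hL1 hA0 hA (hw ▸ hsw)
  obtain ⟨hθ1, hτ1, hdeg1, hτ2, hdeg2⟩ := hl3 l hll3 L A s hL1 hL2 hA0 (hw ▸ hsw)
  obtain ⟨τ, hτ⟩ : ∃ τ : ℕ, τ = ⌈s * Real.exp (-((1 - η) * L))⌉₊ := ⟨_, rfl⟩
  obtain ⟨Y, hY⟩ : ∃ Y : ℕ, Y = ⌊C * s⌋₊ := ⟨_, rfl⟩
  rw [← hτ] at hτ1 hdeg1 hτ2 hdeg2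
  rw [← hC, ← hY] at hdeg2
  obtain ⟨F0, hF0⟩ : ∃ F0 : ℝ, F0 = c * s ^ r := ⟨_, rfl⟩
  obtain ⟨m, hm⟩ : ∃ m : ℝ, m = c * s ^ r * Real.exp (-A - ζ / 2 * l) := ⟨_, rfl⟩
  have hF00 : 0 < F0 := by rw [hF0]; positivity
  have hm0 : 0 < m := by rw [hm]; positivity
  have hYle : (Y : ℝ) ≤ C * s := by rw [hY]; exact Nat.floor_le (by positivity)
  have hmF : m ≤ F0 := by
    have : Real.exp (-A - ζ / 2 * l) ≤ 1 := by
      rw [Real.exp_le_one_iff]
      have : 0 < ζ / 2 * l := by positivity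
      linarith
    calc m = F0 * Real.exp (-A - ζ / 2 * l) := by rw [hm, hF0]
      _ ≤ F0 * 1 := mul_le_mul_of_nonneg_left this hF00.le
      _ = F0 := mul_one _
  have hmdiv : m / F0 = Real.exp (-A - ζ / 2 * l) := by
    rw [hm, hF0]
    field_simp
  have hbad := hBad n r τ Y p κ F0 b m lam (s * Real.exp (ζ / 4 * l)) S hp0 hp1 (by omega)
    (by
      intro M N hN hN2 hsum hR
      rw [hF0, hs]
      apply hcomb n S M N hSs0 hN ?_ ?_ hR
      · intro v hv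
        have h1 := hN2 v hv
        have h2 : (S.card : ℝ) ≤ 2 * r ^ 2 * ((S \ N v).card : ℝ) := by exact_mod_cast h1
        rw [one_div, inv_mul_le_iff₀ (by positivity)]
        exact h2
      · have h1 : ((∑ v ∈ M, (N v).card : ℕ) : ℝ) ≤ (Y : ℝ) := by exact_mod_cast hsum
        rw [← hs]
        exact le_trans h1 hYle)
    hb0 hb1 hm0 hmF hlam
    (by
      have h1 : ((τ : ℝ)) ^ r ≤ (2 * s * Real.exp (-((1 - η) * L))) ^ r :=
        pow_le_pow_left₀ (Nat.cast_nonneg _) hτ2 r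
      rw [hm]
      exact le_trans h1 hbm)
    (by positivity)
    (by
      intro j hj2 hjr
      have := hjan j hj2 hjr
      rw [hexpL, ← hm] at this
      rw [← hs]
      exact this)
  have hS1' : 1 ≤ S.card := by rw [hs] at hs1; exact_mod_cast hs1
  refine ⟨hS1', ?_⟩
  rw [← hs]
  -- the three terms
  have hT1 : Pb p (fun ω : Om n => Y ≤ ∑ v ∈ (univ \ S).filter (fun v => τ ≤ (nb ω v S).card),
            (nb ω v S).card) ≤ Real.exp (-(4 * s * l)) := by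
    have h1 := hDeg n p (Real.exp (η * L / 2)) S τ Y hp0.le hp1 hθ1 hτ1
      (by rw [hexpL] at hdeg1; rw [← hs]; exact hdeg1)
    refine le_trans h1 ?_
    rw [hexpl] at hdeg2
    exact hdeg2
  have hT2 : ((n : ℝ) * S.card + 1) ^ Y *
            ((m / F0) ^ lam * Real.exp (n * p ^ r * (((1 - b) ^ (-lam) - 1) / b)))
        ≤ Real.exp (-(4 * s * l)) := by
    refine le_trans ?_ hproc
    rw [hmdiv, ← hs, ← hAd]
    apply mul_le_mul_of_nonneg_right
    · have h1 : (n : ℝ) * s + 1 ≤ Real.exp (3 * l) := by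
        have h2 : Real.exp (3 * l) = (n : ℝ) ^ 3 := by
          rw [← hexpl, ← Real.exp_nat_mul]
          norm_num
        rw [h2]
        exact ns_le hn2 hSn
      calc ((n : ℝ) * s + 1) ^ Y ≤ (Real.exp (3 * l)) ^ Y :=
            pow_le_pow_left₀ (by positivity) h1 Y
        _ = Real.exp (Y * (3 * l)) := by rw [← Real.exp_nat_mul]
        _ ≤ Real.exp (3 * C * s * l) := by
            apply Real.exp_le_exp.2
            have : (Y : ℝ) * (3 * l) ≤ C * s * (3 * l) :=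
              mul_le_mul_of_nonneg_right hYle (by positivity)
            linarith
    · positivity
  have hT3 : Real.exp (-(s * Real.exp (ζ / 4 * l)) / 2) ≤ Real.exp (-(4 * s * l)) := hjan2
  have hsum : Pb p (fun ω : Om n => BadS r κ S ω) ≤ 3 * Real.exp (-(4 * s * l)) := by
    refine le_trans hbad ?_
    linarith
  refine le_trans hsum ?_
  have h3 : (3 : ℝ) ≤ Real.exp (s * l) := by
    have h4 := Real.add_one_le_exp (s * l)
    have h5 : 1 * 2 ≤ s * l := mul_le_mul hs1 hll5 (by norm_num) (by linarith)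
    linarith
  calc 3 * Real.exp (-(4 * s * l)) ≤ Real.exp (s * l) * Real.exp (-(4 * s * l)) :=
        mul_le_mul_of_nonneg_right h3 (Real.exp_pos _).le
    _ = Real.exp (-(3 * s * l)) := by rw [← Real.exp_add]; congr 1; ring

end Pool.Agent.L5helper39.CQ
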