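import Pool.Agent.L5helper13.CQ.UnionS
import Pool.Agent.L5helper39.CQ.LowR

/-!
Project CQ (MP_b09bc5_pr): `TaskLowRNum`.
-/

set_option autoImplicit false

namespace Pool.Agent.L5helper39.CQ

open Finset Pool.Agent.L5helper98.CQ
open scoped Classical

theorem taskLowRNum : TaskLowRNum := by
  intro hDeg hComb hBad ε γ ζ r hε hγ hζ hζγ hr
  obtain ⟨κ, hκ, l0, h⟩ := bad_fixed hDeg hComb hBad ε γ ζ r hε hγ hζ hζγ hr
  refine ⟨κ, hκ, max 2 ⌈Real.exp l0⌉₊, ?_⟩
  intro n hn p hp hA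
  have hn2 : 2 ≤ n := le_trans (le_max_left _ _) hn
  have hn0 : (0 : ℝ) < n := by positivity
  have hn1 : (1 : ℝ) ≤ n := by exact_mod_cast (by omega : 1 ≤ n)
  have hl : l0 ≤ Real.log n := by
    rw [Real.le_log_iff_exp_le hn0]
    have h1 : ⌈Real.exp l0⌉₊ ≤ n := le_trans (le_max_right _ _) hn
    exact Nat.ceil_le.1 h1
  have hlog0 : 0 ≤ Real.log n := Real.log_nonneg hn1
  obtain ⟨hp1, hp2⟩ := hp
  have hp0 : 0 < p := lt_of_lt_of_le (Real.rpow_pos_of_pos hn0 _) hp1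
  have hple : p ≤ 1 := by
    refine le_trans hp2 ?_
    exact Real.rpow_le_one_of_one_le_of_nonpos hn1 (by linarith)
  have hL1 : ε * Real.log n ≤ Real.log (1 / p) := by
    rw [one_div, Real.log_inv]
    have h1 := Real.log_le_log hp0 hp2
    rw [Real.log_rpow hn0] at h1
    linarith
  have hL2 : Real.log (1 / p) ≤ Real.log n / 3 := by
    rw [one_div, Real.log_inv]
    have h1 := Real.log_le_log (Real.rpow_pos_of_pos hn0 _) hp1
    rw [Real.log_rpow hn0] at h1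
    nlinarith
  have key := h n hn2 hl p hp0 hple hL1 hL2 hA
  have hU := Pool.Agent.L5helper13.CQ.union_S n hn2 p hp0.le hple
    (fun S => sz n r p ζ ≤ S.card ∧ S.card ≤ r * sz n r p ζ) (fun S ω => BadS r κ S ω)
    (fun S hS => key S hS.1 hS.2)
  refine le_trans (le_of_eq ?_) hU
  congr 1
  funext ω
  apply propext
  constructor
  · rintro ⟨S, h1, h2, h3⟩
    exact ⟨S, ⟨h1, h2⟩, h3⟩
  · rintro ⟨S, ⟨h1, h2⟩, h3⟩
    exact ⟨S, h1, h2, h3⟩


end Pool.Agent.L5helper39.CQ
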